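import Pool.Agent.H97.SHL.Targets

/-!
# Row SEQ: scans with bounded memory give decision trees of small depth
-/

set_option autoImplicit false

namespace Pool.Agent.H60.SHL

open Finset Pool.Agent.H97.SHL

theorem dt_mono {X : Type} [DecidableEq X] {𝓛 : Finset (Finset X)} {Lf : Finset X → Prop}
    (hm : ∀ Q Q', Lf Q → Q' ⊆ Q → Lf Q') {Q : Finset X} {t s : ℕ} (h : DT 𝓛 Lf Q t s) :
    ∀ Q' : Finset X, Q' ⊆ Q → DT 𝓛 Lf Q' t s := by
  induction h with
  | leaf Q t h => intro Q' hQ; exact DT.leaf _ _ (hm _ _ h hQ)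
  | node Q A t s₁ s₂ hA h1 h2 ih1 ih2 =>
    intro Q' hQ
    exact DT.node _ A _ _ _ hA (ih1 _ (inter_subset_inter_right hQ))
      (ih2 _ (sdiff_subset_sdiff hQ (Subset.refl A)))

theorem pf_SEQ : T_SEQ := by
  intro X _ _ 𝓛 Lf hm T d M hM hL hT hTd
  have key : ∀ d i j : ℕ, i < j → j ≤ T → j - i ≤ 2 ^ d → DT 𝓛 Lf (M i \ M j) d (j - i) := by
    intro d
    induction d with
    | zero =>
      intro i j hij hj h
      have e : j = i + 1 := by
        have : (2 : ℕ) ^ 0 = 1 := rfl
        omega
      subst e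
      have e2 : i + 1 - i = 1 := by omega
      rw [e2]
      exact DT.leaf _ _ (hL i (by omega))
    | succ d ih =>
      intro i j hij hj h
      by_cases e : j = i + 1
      · subst e
        have e2 : i + 1 - i = 1 := by omega
        rw [e2]
        exact DT.leaf _ _ (hL i (by omega))
      · obtain ⟨k, hk⟩ : ∃ k, k = (i + j) / 2 := ⟨_, rfl⟩
        have h2 : (2 : ℕ) ^ (d + 1) = 2 * 2 ^ d := by ring
        have hik : i < k := by omega
        have hkj : k < j := by omega
        have e3 : j - i = (k - i) + (j - k) := by omega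
        rw [e3]
        refine DT.node _ (M k)ᶜ d (k - i) (j - k) (hM k (by omega) (by omega)) ?_ ?_
        · refine dt_mono hm (ih i k hik (by omega) (by omega)) _ ?_
          intro x hx
          rw [mem_inter, mem_sdiff, mem_compl] at hx
          rw [mem_sdiff]
          exact ⟨hx.1.1, hx.2⟩
        · refine dt_mono hm (ih k j hkj hj (by omega)) _ ?_
          intro x hx
          rw [mem_sdiff, mem_sdiff, mem_compl, not_not] at hx
          rw [mem_sdiff]
          exact ⟨hx.2, hx.1.2⟩
  have := key d 0 T hT le_rfl (by omega)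
  rwa [Nat.sub_zero] at this

end Pool.Agent.H60.SHL
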