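import Pool.Agent.H97.SHL.Targets

/-!
# Row ENC: the encoding of the blocks by bits
-/

set_option autoImplicit false

namespace Pool.Agent.H60.SHL

open Finset Pool.Agent.H97.SHL

theorem pf_ENC : T_ENC := by
  intro n m b hmb
  rcases Nat.eq_zero_or_pos b with hb0 | hb
  · subst hb0
    refine ⟨fun _ _ => false, fun _ _ => ∅, ⟨fun _ _ => by simp, ?_, ?_⟩⟩
    · intro x i γ
      have h1 : (x i).val < 1 := (x i).isLt
      have h2 : γ.val < 1 := γ.isLt
      constructor
      · intro _
        ext
        omega
      · intro _ l hl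
        simp at hl
    · intro z
      refine ⟨fun _ => ⟨0, by norm_num⟩, fun i l hl => ?_⟩
      simp at hl
  · have hlt : ∀ (i : Fin m) (j : Fin b), i.val * b + j.val < n := by
      intro i j
      have h1 := i.isLt
      have h2 := j.isLt
      have h3 : (i.val + 1) * b ≤ m * b := Nat.mul_le_mul_right _ h1
      have h4 : (i.val + 1) * b = i.val * b + b := by ring
      omega
    have hdiv : ∀ (i : Fin m) (j : Fin b), (i.val * b + j.val) / b = i.val := by
      intro i j
      rw [mul_comm, Nat.mul_add_div hb, Nat.div_eq_of_lt j.isLt, add_zero]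
    have hmod : ∀ (i : Fin m) (j : Fin b), (i.val * b + j.val) % b = j.val := by
      intro i j
      rw [mul_comm, Nat.mul_add_mod, Nat.mod_eq_of_lt j.isLt]
    obtain ⟨emb, hemb⟩ : ∃ emb : Pt m (2 ^ b) → Fin n → Bool,
        ∀ (x : Pt m (2 ^ b)) (i : Fin m) (j : Fin b), emb x ⟨i.val * b + j.val, hlt i j⟩ =
          Nat.testBit (x i).val j.val := by
      refine ⟨fun x v => if h : v.val / b < m then Nat.testBit (x ⟨v.val / b, h⟩).val (v.val % b)
        else false, fun x i j => ?_⟩
      have h1 : (i.val * b + j.val) / b < m := by rw [hdiv]; exact i.isLt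
      have h2 : (⟨(i.val * b + j.val) / b, h1⟩ : Fin m) = i := Fin.ext (hdiv i j)
      simp only [h1, dif_pos, h2, hmod]
    have hinj : Function.Injective (fun (γ : Fin (2 ^ b)) (j : Fin b) => Nat.testBit γ.val j.val) := by
      intro γ γ' h
      apply Fin.ext
      apply Nat.eq_of_testBit_eq
      intro j
      by_cases hj : j < b
      · exact congrFun h ⟨j, hj⟩
      · have hj' : 2 ^ b ≤ 2 ^ j := Nat.pow_le_pow_right (by norm_num) (not_lt.1 hj)
        rw [Nat.testBit_lt_two_pow (lt_of_lt_of_le γ.isLt hj'),
          Nat.testBit_lt_two_pow (lt_of_lt_of_le γ'.isLt hj')]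
    have hsur : Function.Surjective
        (fun (γ : Fin (2 ^ b)) (j : Fin b) => Nat.testBit γ.val j.val) := by
      have := (Fintype.bijective_iff_injective_and_card
        (fun (γ : Fin (2 ^ b)) (j : Fin b) => Nat.testBit γ.val j.val)).2 ⟨hinj, by simp⟩
      exact this.2
    refine ⟨emb, fun i γ => univ.image fun j : Fin b =>
      ((⟨i.val * b + j.val, hlt i j⟩ : Fin n), !(Nat.testBit γ.val j.val)), ⟨?_, ?_, ?_⟩⟩
    · intro i γ
      exact card_image_le.trans (by simp)
    · intro x i γ
      constructor
      · intro h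
        apply hinj
        funext j
        have := h (⟨i.val * b + j.val, hlt i j⟩, !(Nat.testBit γ.val j.val))
          (mem_image.2 ⟨j, mem_univ _, rfl⟩)
        rw [hemb] at this
        simpa using this
      · rintro rfl l hl
        obtain ⟨j, _, rfl⟩ := mem_image.1 hl
        show emb x ⟨i.val * b + j.val, hlt i j⟩ ≠ _
        rw [hemb]
        simp
    · intro z
      choose y hy using fun i : Fin m => hsur fun j : Fin b => z ⟨i.val * b + j.val, hlt i j⟩
      refine ⟨y, fun i l hl => ?_⟩
      obtain ⟨j, _, rfl⟩ := mem_image.1 hl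
      have h1 : Nat.testBit (y i).val j.val = z ⟨i.val * b + j.val, hlt i j⟩ := congrFun (hy i) j
      show z ⟨i.val * b + j.val, hlt i j⟩ ≠ _
      rw [h1]
      simp

end Pool.Agent.H60.SHL
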