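import Pool.Agent.H60.SHL.Lib

/-!
# Row LNG: a line with large good narrow parts is high
-/

set_option autoImplicit false

namespace Pool.Agent.H60.SHL

open Finset Pool.Agent.H97.SHL

open Classical in
theorem pf_LNG (hPH2 : T_PH2) : T_LNG := by
  intro X K _ _ D U Y N T₀ 𝓛 Lf dc nar gd Fam E S A h hD T i hT hi hbig
  by_contra hlt
  rw [not_le] at hlt
  have hU := E.U1
  have hN := E.N1
  have hY := E.Y0
  obtain ⟨F, hF⟩ : ∃ F, F = (dc (A i)).filter (fun p => nar p ∧ gd p) := ⟨_, rfl⟩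
  have h1 : ∀ p ∈ F, 3 * (p.1.card : ℝ) ≤ 8 * U * (2 ^ T * Y) := by
    intro p hp
    rw [hF, mem_filter] at hp
    obtain ⟨C, _, _, _, _, h5, h6⟩ :=
      hPH2 X K D U Y N T₀ 𝓛 Lf dc nar gd Fam E S A h hD T i hT hi p hp.1 hp.2.1 hp.2.2
    have hC : C = ∅ := by
      rw [eq_empty_iff_forall_notMem]
      intro c hc
      obtain ⟨j, _, _, h7⟩ := h5 c hc
      omega
    rw [hC, sum_empty, zero_add] at h6
    exact h6
  have h2 := sum_le_sum h1
  rw [← mul_sum, sum_const, nsmul_eq_mul] at h2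
  have e1 : ((gs dc nar gd (A i)).card : ℝ) = ∑ p ∈ F, (p.1.card : ℝ) := by
    rw [card_gs E, hF]
    push_cast
    rfl
  have h3 : (F.card : ℝ) ≤ N := by rw [hF]; exact num_le E (A i)
  have h4 : (F.card : ℝ) * (8 * U * (2 ^ T * Y)) ≤ N * (8 * U * (2 ^ T * Y)) :=
    mul_le_mul_of_nonneg_right h3 (by positivity)
  rw [e1] at hbig
  nlinarith [h2, h4, hbig]

end Pool.Agent.H60.SHL
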