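import Pool.Agent.H97.SHL.Targets

/-!
# Sums over the good narrow parts
-/

set_option autoImplicit false

namespace Pool.Agent.H60.SHL

open Finset Pool.Agent.H97.SHL

variable {X K : Type} [Fintype X] [DecidableEq X] {D : X → ℝ} {U Y N : ℝ} {T₀ : ℕ}
  {𝓛 : Finset (Finset X)} {Lf : Finset X → Prop} {dc : Finset X → Finset (Finset X × K)}
  {nar gd : Finset X × K → Prop} {Fam : Finset X → Prop}

open Classical in
theorem card_gs (E : Env D U Y N T₀ 𝓛 Lf dc nar gd Fam) (Q : Finset X) :
    (gs dc nar gd Q).card = ∑ p ∈ (dc Q).filter (fun p => nar p ∧ gd p), p.1.card := by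
  unfold gs
  rw [card_biUnion]
  intro p hp p' hp' hne
  exact E.dis Q p (mem_filter.1 hp).1 p' (mem_filter.1 hp').1 hne

open Classical in
theorem sum_inter_le (E : Env D U Y N T₀ 𝓛 Lf dc nar gd Fam) (Q R : Finset X) :
    ∑ p ∈ (dc Q).filter (fun p => nar p ∧ gd p), (p.1 ∩ R).card ≤ R.card := by
  rw [← card_biUnion]
  · exact card_le_card (biUnion_subset.2 fun p _ => inter_subset_right)
  · intro p hp p' hp' hne
    exact (E.dis Q p (mem_filter.1 hp).1 p' (mem_filter.1 hp').1 hne).mono inter_subset_left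
      inter_subset_left

open Classical in
theorem num_le (E : Env D U Y N T₀ 𝓛 Lf dc nar gd Fam) (Q : Finset X) :
    ((((dc Q).filter (fun p => nar p ∧ gd p)).card : ℕ) : ℝ) ≤ N :=
  le_trans (by exact_mod_cast card_filter_le _ _) (E.num Q)

theorem wst_le (E : Env D U Y N T₀ 𝓛 Lf dc nar gd Fam) (S : ℕ) (A : ℕ → Finset X) :
    ((wst dc nar S A).card : ℝ) ≤ S * Y := by
  unfold wst
  have h1 : (((range S).biUnion fun j => ws dc nar (A j)).card : ℝ) ≤
      ∑ j ∈ range S, ((ws dc nar (A j)).card : ℝ) := by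
    exact_mod_cast card_biUnion_le
  refine h1.trans ((sum_le_sum fun j _ => E.wid (A j)).trans ?_)
  rw [sum_const, card_range, nsmul_eq_mul]

end Pool.Agent.H60.SHL
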