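import Pool.Agent.H60.SHL.Lib

/-!
# Row PH5: all good narrow parts
-/

set_option autoImplicit false

namespace Pool.Agent.H60.SHL

open Finset Pool.Agent.H97.SHL

open Classical in
theorem pf_PH5 (hPH4 : T_PH4) : T_PH5 := by
  intro X K _ _ D U Y N T₀ 𝓛 Lf dc nar gd Fam E S A h hD T i hT hi
  obtain ⟨F, hF⟩ : ∃ F, F = (dc (A i)).filter (fun p => nar p ∧ gd p) := ⟨_, rfl⟩
  have hU := E.U1
  have hN := E.N1
  have hY := E.Y0
  have h1 : ∀ p ∈ F, 9 * (p.1.card : ℝ) ≤ 64 * U ^ 2 *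
      (((p.1 ∩ gst dc nar gd S A h i T).card : ℝ) + (p.1 ∩ wst dc nar S A).card +
        2 * 2 ^ T * N ^ 2 * Y) := by
    intro p hp
    rw [hF, mem_filter] at hp
    exact hPH4 X K D U Y N T₀ 𝓛 Lf dc nar gd Fam E S A h hD T i hT hi p hp.1 hp.2.1 hp.2.2
  have h2 := sum_le_sum h1
  rw [← mul_sum, ← mul_sum, sum_add_distrib, sum_add_distrib, sum_const, nsmul_eq_mul] at h2
  have e1 : ((gs dc nar gd (A i)).card : ℝ) = ∑ p ∈ F, (p.1.card : ℝ) := by
    rw [card_gs E, hF]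
    push_cast
    rfl
  have e2 : ∑ p ∈ F, ((p.1 ∩ gst dc nar gd S A h i T).card : ℝ) ≤
      ((gst dc nar gd S A h i T).card : ℝ) := by
    have := sum_inter_le E (A i) (gst dc nar gd S A h i T)
    rw [hF]
    exact_mod_cast this
  have e3 : ∑ p ∈ F, ((p.1 ∩ wst dc nar S A).card : ℝ) ≤ S * Y := by
    refine le_trans ?_ (wst_le E S A)
    have := sum_inter_le E (A i) (wst dc nar S A)
    rw [hF]
    exact_mod_cast this
  have e4 : (F.card : ℝ) * (2 * 2 ^ T * N ^ 2 * Y) ≤ 2 * 2 ^ T * N ^ 3 * Y := by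
    have h3 : (F.card : ℝ) ≤ N := by rw [hF]; exact num_le E (A i)
    have h4 : 0 ≤ 2 * 2 ^ T * N ^ 2 * Y := by positivity
    calc (F.card : ℝ) * (2 * 2 ^ T * N ^ 2 * Y) ≤ N * (2 * 2 ^ T * N ^ 2 * Y) :=
          mul_le_mul_of_nonneg_right h3 h4
      _ = 2 * 2 ^ T * N ^ 3 * Y := by ring
  rw [e1]
  refine h2.trans (mul_le_mul_of_nonneg_left ?_ (by positivity))
  linarith

end Pool.Agent.H60.SHL
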