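import Pool.Agent.H60.SHL.Lib

/-!
# Row PHA: one phase
-/

set_option autoImplicit false

namespace Pool.Agent.H60.SHL

open Finset Pool.Agent.H97.SHL

theorem pf_PHA (hPH5 : T_PH5) : T_PHA := by
  intro X K _ _ D U Y N T₀ 𝓛 Lf dc nar gd Fam E S A h hD T i hT hi hg hb
  have hU := E.U1
  have hN := E.N1
  have hY := E.Y0
  have h5 := hPH5 X K D U Y N T₀ 𝓛 Lf dc nar gd Fam E S A h hD T i hT hi
  have hg' : (0 : ℝ) < (gs dc nar gd (A i)).card := by exact_mod_cast hg
  have h6 : 5 * ((gs dc nar gd (A i)).card : ℝ) ≤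
      64 * U ^ 2 * ((gst dc nar gd S A h i T).card : ℝ) := by
    nlinarith [h5, hb]
  obtain ⟨J, hJ⟩ : ∃ J, J = (range S).filter (fun j => h j + T ≤ h i) := ⟨_, rfl⟩
  have hne : J.Nonempty := by
    by_contra hne
    rw [not_nonempty_iff_eq_empty] at hne
    have : gst dc nar gd S A h i T = ∅ := by
      unfold gst
      rw [← hJ, hne, biUnion_empty]
    rw [this, card_empty] at h6
    norm_num at h6
    linarith
  obtain ⟨j, hj, hmax⟩ := exists_max_image J (fun j => (gs dc nar gd (A j)).card) hne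
  have hj' := hj
  rw [hJ, mem_filter, mem_range] at hj'
  refine ⟨j, hj'.1, hj'.2, ?_⟩
  have h7 : ((gst dc nar gd S A h i T).card : ℝ) ≤ S * (gs dc nar gd (A j)).card := by
    have h8 : (gst dc nar gd S A h i T).card ≤ ∑ j ∈ J, (gs dc nar gd (A j)).card := by
      unfold gst
      rw [← hJ]
      exact card_biUnion_le
    have h9 : ∑ j' ∈ J, (gs dc nar gd (A j')).card ≤ J.card * (gs dc nar gd (A j)).card := by
      have := sum_le_card_nsmul J (fun j' => (gs dc nar gd (A j')).card) _ hmax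
      rwa [smul_eq_mul] at this
    have h10 : J.card ≤ S := by
      rw [hJ]
      exact (card_filter_le _ _).trans (card_range S).le
    have h11 := h8.trans (h9.trans (Nat.mul_le_mul_right _ h10))
    exact_mod_cast h11
  have h12 : 64 * U ^ 2 * ((gst dc nar gd S A h i T).card : ℝ) ≤
      64 * U ^ 2 * (S * (gs dc nar gd (A j)).card) :=
    mul_le_mul_of_nonneg_left h7 (by positivity)
  have h13 : 0 ≤ 16 * U ^ 2 * S * ((gs dc nar gd (A j)).card : ℝ) := by positivity
  nlinarith [h12, h6, h13]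

end Pool.Agent.H60.SHL
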