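import Pool.Agent.H97.SHL.Targets

/-!
# Row TRL: from lines to sets of points
-/

set_option autoImplicit false

namespace Pool.Agent.H60.SHL

open Finset Pool.Agent.H97.SHL

variable {n m B q b : ℕ} {emb : Pt m B → Fin n → Bool}

theorem mem_pl (L : Set (Fin n → Bool)) (x : Pt m B) : x ∈ pl emb L ↔ emb x ∈ L := by
  classical
  unfold pl
  rw [mem_filter]
  exact ⟨fun h => h.2, fun h => ⟨mem_univ _, h⟩⟩

theorem pl_compl (L : Set (Fin n → Bool)) : pl emb Lᶜ = (pl emb L)ᶜ := by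
  ext x
  rw [mem_compl, mem_pl, mem_pl]
  rfl

theorem pl_inter (Q L : Set (Fin n → Bool)) : pl emb (Q ∩ L) = pl emb Q \ (pl emb L)ᶜ := by
  ext x
  rw [mem_sdiff, mem_compl, mem_pl, mem_pl, mem_pl, not_not]
  rfl

theorem pl_sdiff (Q L : Set (Fin n → Bool)) : pl emb (Q \ L) = pl emb Q ∩ (pl emb L)ᶜ := by
  ext x
  rw [mem_inter, mem_compl, mem_pl, mem_pl, mem_pl]
  rfl

theorem pl_sdiff' (Q L : Set (Fin n → Bool)) : pl emb (Q \ L) = pl emb Q \ pl emb L := by
  ext x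
  rw [mem_sdiff, mem_pl, mem_pl, mem_pl]
  rfl

theorem mem_ply {𝓛 : Finset (Line n)} {L : Line n} (h : L ∈ 𝓛) : (pl emb L)ᶜ ∈ ply emb 𝓛 := by
  unfold ply
  exact mem_image.2 ⟨L, h, rfl⟩

theorem leaf_lfc {cl : Fin m → Fin B → Finset (Fin n × Bool)} {G : Fin m → Fin B → Fin q}
    (hE : Enc emb cl b) {σ : ℕ} {Q : Set (Fin n → Bool)} (h : Leaf (fm cl G) σ Q) :
    Lfc G σ (pl emb Q) := by
  classical
  obtain ⟨F, hF, hc, hx⟩ := h
  have key : ∀ C : {C // C ∈ F}, ∃ t : (Fin m × Fin B) × (Fin m × Fin B),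
      (t.1.1 ≠ t.2.1 ∧ G t.1.1 t.1.2 = G t.2.1 t.2.2) ∧
        cl t.1.1 t.1.2 ∪ cl t.2.1 t.2.2 = C.1 := by
    rintro ⟨C, hC⟩
    have h1 := hF hC
    unfold fm at h1
    obtain ⟨t, ht, e⟩ := mem_image.1 h1
    exact ⟨t, (mem_filter.1 ht).2, e⟩
  choose f hf1 hf2 using key
  refine ⟨F.attach.image f, card_image_le.trans (by rw [card_attach]; exact hc), ?_⟩
  intro x hxQ
  rw [mem_pl] at hxQ
  obtain ⟨C, hC, hfal⟩ := hx _ hxQ
  refine ⟨f ⟨C, hC⟩, mem_image.2 ⟨⟨C, hC⟩, mem_attach _ _, rfl⟩, (hf1 ⟨C, hC⟩).1,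
    (hf1 ⟨C, hC⟩).2, ?_, ?_⟩
  · rw [← hE.fal]
    intro l hl
    exact hfal l ((hf2 ⟨C, hC⟩).subset (mem_union_left _ hl))
  · rw [← hE.fal]
    intro l hl
    exact hfal l ((hf2 ⟨C, hC⟩).subset (mem_union_right _ hl))

theorem lfc_mono {G : Fin m → Fin B → Fin q} {σ : ℕ} (Q Q' : Finset (Pt m B))
    (h : Lfc G σ Q) (hs : Q' ⊆ Q) : Lfc G σ Q' := by
  obtain ⟨T, h1, h2⟩ := h
  exact ⟨T, h1, fun x hx => h2 x (hs hx)⟩

theorem pf_TRL (hSEQ : T_SEQ) : T_TRL := by
  intro n m B q b emb cl G hE 𝓛 σ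
  refine ⟨card_image_le, fun Q hQ => leaf_lfc hE hQ, ?_, ?_, ?_, ?_⟩
  · intro L s h
    induction h with
    | ax L h1 h2 =>
      refine TreeX.ax _ (mem_ply h1) ?_
      rw [← pl_compl]
      exact leaf_lfc hE h2
    | weak L L' s h1 _ h3 ih =>
      refine TreeX.weak _ _ _ (mem_ply h1) ih ?_
      intro x hx
      rw [mem_compl, mem_pl] at hx ⊢
      exact fun h => hx (h3 h)
    | res L L₁ L₂ s₁ s₂ h1 _ _ h4 ih1 ih2 =>
      refine TreeX.res _ _ _ _ _ (mem_ply h1) ih1 ih2 ?_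
      intro x hx
      rw [mem_union, mem_compl, mem_compl, mem_pl, mem_pl]
      rw [mem_compl, mem_pl] at hx
      by_contra hc
      rw [not_or, not_not, not_not] at hc
      exact hx (h4 hc)
  · intro Q t s h
    induction h with
    | leaf Q t h => exact DT.leaf _ _ (leaf_lfc hE h)
    | node Q L t s₁ s₂ hL _ _ ih1 ih2 =>
      rw [add_comm s₁ s₂]
      refine DT.node _ (pl emb L)ᶜ t s₂ s₁ (mem_ply hL) ?_ ?_
      · rw [← pl_sdiff]
        exact ih2
      · rw [← pl_inter]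
        exact ih1
  · intro T d M hM hT
    have hT0 : 0 < T := by
      rcases Nat.eq_zero_or_pos T with h | h
      · exfalso
        subst h
        have h1 : (Set.univ : Set (Fin n → Bool)) = ∅ := hM.zero.symm.trans hM.last
        have h2 : (fun _ => false : Fin n → Bool) ∈ (Set.univ : Set (Fin n → Bool)) := trivial
        rw [h1] at h2
        exact h2
      · exact h
    refine ⟨hT0, ?_⟩
    have h1 := hSEQ (Pt m B) (ply emb 𝓛) (Lfc G σ) (fun Q Q' h hs => lfc_mono Q Q' h hs) T d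
      (fun t => pl emb (M t)) (fun t h0 h1 => mem_ply (hM.mem t h0 h1)) (fun t ht => by
        rw [← pl_sdiff']
        exact leaf_lfc hE (hM.step t ht)) hT0 hT
    have h2 : pl emb (M 0) \ pl emb (M T) = univ := by
      ext x
      rw [mem_sdiff, mem_pl, mem_pl, hM.zero, hM.last]
      exact ⟨fun _ => mem_univ _, fun _ => ⟨trivial, fun h => h⟩⟩
    rw [h2] at h1
    exact h1
  · intro S r L h hR
    refine ⟨⟨fun i hi => mem_ply (hR.mem i hi), ?_⟩, ?_⟩
    · intro i hi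
      rcases hR.step i hi with h1 | ⟨j, hj, h2, h3⟩ | ⟨j, k, hj, hk, h2, h3, h4⟩
      · left
        rw [← pl_compl]
        exact leaf_lfc hE h1
      · right; left
        refine ⟨j, hj, h2, ?_⟩
        intro x hx
        rw [mem_compl, mem_pl] at hx ⊢
        exact fun h => hx (h3 h)
      · right; right
        refine ⟨j, k, hj, hk, h2, h3, ?_⟩
        intro x hx
        rw [mem_union, mem_compl, mem_compl, mem_pl, mem_pl]
        rw [mem_compl, mem_pl] at hx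
        by_contra hc
        rw [not_or, not_not, not_not] at hc
        exact hx (h4 hc)
    · ext x
      rw [mem_compl, mem_pl, hR.empty]
      exact ⟨fun _ => mem_univ _, fun _ h => h⟩

end Pool.Agent.H60.SHL
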